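import Pool.Agent.helper79.CL.NB

/-!
# Row cl:DB
-/

set_option autoImplicit false

namespace Pool.Agent.helper41.CL

open Finset

theorem DB_split {α : Type} [DecidableEq α] (E : Finset (Finset α)) (p : α) :
    #(inc E p) + #(E.filter fun e => p ∉ e) = #E := by
  have hd : Disjoint (inc E p) (E.filter fun e => p ∉ e) := by
    rw [Finset.disjoint_left]
    intro e he he'
    exact (Finset.mem_filter.1 he').2 (Finset.mem_filter.1 he).2
  rw [← Finset.card_union_of_disjoint hd]
  congr 1
  ext e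
  rw [Finset.mem_union, inc, Finset.mem_filter, Finset.mem_filter]
  tauto

theorem DB_gr1 {α : Type} [DecidableEq α] {V : Finset α} {E : Finset (Finset α)} (hG : Gr V E)
    (p : α) : Gr (V.erase p) (E.filter fun e => p ∉ e) := by
  intro e he
  obtain ⟨h1, h2⟩ := Finset.mem_filter.1 he
  refine ⟨?_, (hG e h1).2⟩
  intro x hx
  rw [Finset.mem_erase]
  exact ⟨fun h => h2 (h ▸ hx), (hG e h1).1 hx⟩

theorem DB_gr3 {α : Type} [DecidableEq α] {V : Finset α} {E : Finset (Finset α)} (hG : Gr V E)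
    (p a b : α) : Gr (V \ {p, a, b}) (E.filter fun e => p ∉ e ∧ a ∉ e ∧ b ∉ e) := by
  intro e he
  obtain ⟨h1, h2, h3, h4⟩ := Finset.mem_filter.1 he
  refine ⟨?_, (hG e h1).2⟩
  intro x hx
  rw [Finset.mem_sdiff, Finset.mem_insert, Finset.mem_insert, Finset.mem_singleton]
  refine ⟨(hG e h1).1 hx, ?_⟩
  rintro (h | h | h)
  · exact h2 (h ▸ hx)
  · exact h3 (h ▸ hx)
  · exact h4 (h ▸ hx)

theorem DB_card3 {α : Type} [DecidableEq α] (V : Finset α) (p a b : α) (hp : p ∈ V) (ha : a ∈ V)
    (hb : b ∈ V) (hpa : p ≠ a) (hpb : p ≠ b) (hab : a ≠ b) : #(V \ {p, a, b}) + 3 = #V := by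
  have h : V \ {p, a, b} = ((V.erase p).erase a).erase b := by
    ext x
    simp only [Finset.mem_sdiff, Finset.mem_insert, Finset.mem_singleton, Finset.mem_erase]
    tauto
  rw [h, Finset.card_erase_of_mem, Finset.card_erase_of_mem, Finset.card_erase_of_mem hp]
  · have h3 : 3 ≤ #V := by
      have h4 : ({p, a, b} : Finset α) ⊆ V := by
        intro x hx
        simp only [Finset.mem_insert, Finset.mem_singleton] at hx
        rcases hx with rfl | rfl | rfl
        · exact hp
        · exact ha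
        · exact hb
      have h5 := Finset.card_le_card h4
      have h6 : #({p, a, b} : Finset α) = 3 := by
        rw [Finset.card_eq_three]
        exact ⟨p, a, b, hpa, hpb, hab, rfl⟩
      omega
    omega
  · exact Finset.mem_erase.2 ⟨hpa.symm, ha⟩
  · exact Finset.mem_erase.2 ⟨hab.symm, Finset.mem_erase.2 ⟨hpb.symm, hb⟩⟩

/-- another member of `E` at `a` -/
theorem DB_other {α : Type} [DecidableEq α] (E : Finset (Finset α)) (a : α) (f : Finset α)
    (h : 2 ≤ #(inc E a)) : ∃ g ∈ E, a ∈ g ∧ g ≠ f := by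
  obtain ⟨g1, h1, g2, h2, h12⟩ := Finset.one_lt_card.1 (show 1 < #(inc E a) by omega)
  obtain ⟨ha, hb⟩ := Finset.mem_filter.1 h1
  obtain ⟨hc, hd⟩ := Finset.mem_filter.1 h2
  by_cases h : g1 = f
  · exact ⟨g2, hc, hd, fun h' => h12 (h.trans h'.symm)⟩
  · exact ⟨g1, ha, hb, h⟩

theorem DB (h1 : AZ_stmt) (h2 : SP_stmt) (h3 : WO_stmt) (h4 : EE_stmt) : DB_stmt := by
  intro α _ V E p a b q hG hV hab hpa hpb hpaE hpbE hall hda hdb habE hqp hqa hqb hdq
  have hpV : p ∈ V := (hG _ hpaE).1 (by simp)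
  have haV : a ∈ V := (hG _ hpaE).1 (by simp)
  have hbV : b ∈ V := (hG _ hpbE).1 (by simp)
  obtain ⟨f, hfE, haf, hfne⟩ := DB_other E a {p, a} hda
  obtain ⟨g, hgE, hbg, hgne⟩ := DB_other E b {p, b} hdb
  have hapb : a ∉ ({p, b} : Finset α) := by
    rw [Finset.mem_insert, Finset.mem_singleton]
    rintro (h | h)
    · exact hpa h.symm
    · exact hab h
  have hbpa : b ∉ ({p, a} : Finset α) := by
    rw [Finset.mem_insert, Finset.mem_singleton]
    rintro (h | h)
    · exact hpb h.symm
    · exact hab h.symm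
  have hn1 : ({p, a} : Finset α) ≠ {p, b} := by
    intro h
    exact hapb (by rw [← h]; simp)
  have hn2 : f ≠ {p, b} := by
    rintro rfl
    exact hapb haf
  have hn3 : g ≠ {p, a} := by
    rintro rfl
    exact hbpa hbg
  have hn4 : f ≠ g := by
    intro h
    apply habE
    have hsub : ({a, b} : Finset α) ⊆ f := by
      intro x hx
      rw [Finset.mem_insert, Finset.mem_singleton] at hx
      rcases hx with rfl | rfl
      · exact haf
      · rw [h]; exact hbg
    have hcard : #f ≤ #({a, b} : Finset α) := by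
      rw [(hG f hfE).2, Finset.card_pair hab]
    rw [Finset.eq_of_subset_of_card_le hsub hcard]
    exact hfE
  have m1 : ({p, b} : Finset α) ∈ E.erase {p, a} := Finset.mem_erase.2 ⟨hn1.symm, hpbE⟩
  have m2 : f ∈ (E.erase {p, a}).erase {p, b} :=
    Finset.mem_erase.2 ⟨hn2, Finset.mem_erase.2 ⟨hfne, hfE⟩⟩
  have m3 : g ∈ ((E.erase {p, a}).erase {p, b}).erase f :=
    Finset.mem_erase.2 ⟨hn4.symm, Finset.mem_erase.2 ⟨hgne, Finset.mem_erase.2 ⟨hn3, hgE⟩⟩⟩
  have hcE : #((((E.erase {p, a}).erase {p, b}).erase f).erase g) + 4 = #E := by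
    have c1 := Finset.card_erase_add_one hpaE
    have c2 := Finset.card_erase_add_one m1
    have c3 := Finset.card_erase_add_one m2
    have c4 := Finset.card_erase_add_one m3
    omega
  obtain ⟨e, he⟩ : ∃ e, #E = e + 4 := ⟨#E - 4, by omega⟩
  have hE0 : #(E.filter fun e => p ∉ e ∧ a ∉ e ∧ b ∉ e) ≤ e := by
    have hsub : (E.filter fun e => p ∉ e ∧ a ∉ e ∧ b ∉ e) ⊆
        (((E.erase {p, a}).erase {p, b}).erase f).erase g := by
      intro x hx
      obtain ⟨hx1, hx2, hx3, hx4⟩ := Finset.mem_filter.1 hx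
      rw [Finset.mem_erase, Finset.mem_erase, Finset.mem_erase, Finset.mem_erase]
      refine ⟨?_, ?_, ?_, ?_, hx1⟩
      · rintro rfl
        exact hx4 hbg
      · rintro rfl
        exact hx3 haf
      · rintro rfl
        exact hx2 (by simp)
      · rintro rfl
        exact hx2 (by simp)
    have hc := Finset.card_le_card hsub
    omega
  -- the degree of `p` is 2
  have hincp : #(inc E p) = 2 := by
    have h : inc E p = {{p, a}, {p, b}} := by
      ext x
      rw [inc, Finset.mem_filter, Finset.mem_insert, Finset.mem_singleton]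
      constructor
      · rintro ⟨hx, hpx⟩
        exact hall x hx hpx
      · rintro (rfl | rfl)
        · exact ⟨hpaE, by simp⟩
        · exact ⟨hpbE, by simp⟩
    rw [h, Finset.card_pair hn1]
  have hs := DB_split E p
  have hqinc : inc (E.filter fun e => p ∉ e) q = inc E q := by
    ext x
    rw [inc, inc, Finset.mem_filter, Finset.mem_filter, Finset.mem_filter]
    constructor
    · rintro ⟨⟨h, _⟩, h'⟩
      exact ⟨h, h'⟩
    · rintro ⟨h, h'⟩
      refine ⟨⟨h, fun hpx => ?_⟩, h'⟩
      rcases hall x h hpx with rfl | rfl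
      · rw [Finset.mem_insert, Finset.mem_singleton] at h'
        rcases h' with h' | h'
        · exact hqp h'
        · exact hqa h'
      · rw [Finset.mem_insert, Finset.mem_singleton] at h'
        rcases h' with h' | h'
        · exact hqp h'
        · exact hqb h'
  have hcV : #(V.erase p) + 1 = #V := Finset.card_erase_add_one hpV
  have hEE := h4 α (V.erase p) (E.filter fun e => p ∉ e) q (e + 2) (DB_gr1 hG p) (by
    rw [hqinc]; exact hdq) (by omega) (by omega)
  have hN := h2 α V E p (e + 1) hpV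
  have hWO := h3 α V E p a b e haV hbV hpa hpb hab hall
  have hc3 := DB_card3 V p a b hpV haV hbV hpa hpb hab
  have hN2 := h1 α (V \ {p, a, b}) (E.filter fun e => p ∉ e ∧ a ∉ e ∧ b ∉ e) e (DB_gr3 hG p a b)
    hE0 (by omega)
  rw [he, show e + 4 - 2 = e + 1 + 1 by omega, hN]
  rw [show e + 2 - 1 = e + 1 by omega] at hEE
  have e1 : 2 ^ (e + 4) = 16 * 2 ^ e := by ring
  have e2 : 2 ^ (e + 2) = 4 * 2 ^ e := by ring
  rw [e1]
  rw [e2] at hEE
  have hWO' : 2 ^ e ≤ #(cov (V.erase p) E (e + 1 + 1)) := hN2.trans hWO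
  omega

end Pool.Agent.helper41.CL

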