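import Pool.Agent.helper41.CL.SpecC

/-!
# Row cl:DD
-/

set_option autoImplicit false

namespace Pool.Agent.helper41.CL

open Finset

theorem DD : DD_stmt := by
  intro α _ V E p q hG hpq hpqE hp hq
  classical
  -- the members with neither `p` nor `q`
  set F := E.filter (fun e => p ∉ e ∧ q ∉ e) with hF
  have hFE : F ⊆ E := Finset.filter_subset _ _
  have hne : ∀ e ∈ E, e.Nonempty := by
    intro e he
    rw [← Finset.card_pos, (hG e he).2]
    norm_num
  let g : Finset α → α := fun e => if h : e.Nonempty then h.choose else p
  have hg : ∀ e ∈ E, g e ∈ e := by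
    intro e he
    simp only [g]
    rw [dif_pos (hne e he)]
    exact (hne e he).choose_spec
  refine ⟨insert p (insert q (F.image g)), ?_, ?_⟩
  · intro e he
    by_cases h1 : p ∈ e
    · exact ⟨p, h1, by simp⟩
    · by_cases h2 : q ∈ e
      · exact ⟨q, h2, by simp⟩
      · refine ⟨g e, hg e he, ?_⟩
        rw [Finset.mem_insert, Finset.mem_insert]
        right; right
        exact Finset.mem_image.2 ⟨e, Finset.mem_filter.2 ⟨he, h1, h2⟩, rfl⟩
  · have h1 : #(insert p (insert q (F.image g))) ≤ #F + 2 := by
      have e1 := Finset.card_insert_le p (insert q (F.image g))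
      have e2 := Finset.card_insert_le q (F.image g)
      have e3 : #(F.image g) ≤ #F := Finset.card_image_le
      omega
    -- `inc E p`, `inc E q`, `F` are disjoint
    have hd1 : Disjoint (inc E p) (inc E q) := by
      rw [Finset.disjoint_left]
      intro e he he'
      obtain ⟨he1, he2⟩ := Finset.mem_filter.1 he
      obtain ⟨_, he3⟩ := Finset.mem_filter.1 he'
      apply hpqE
      have hsub : ({p, q} : Finset α) ⊆ e := by
        intro x hx
        rw [Finset.mem_insert, Finset.mem_singleton] at hx
        rcases hx with rfl | rfl
        · exact he2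
        · exact he3
      have hcard : #e ≤ #({p, q} : Finset α) := by
        rw [(hG e he1).2, Finset.card_pair hpq]
      rw [Finset.eq_of_subset_of_card_le hsub hcard]
      exact he1
    have hd2 : Disjoint (inc E p ∪ inc E q) F := by
      rw [Finset.disjoint_left]
      intro e he he'
      obtain ⟨_, he2, he3⟩ := Finset.mem_filter.1 he'
      rcases Finset.mem_union.1 he with h | h
      · exact he2 (Finset.mem_filter.1 h).2
      · exact he3 (Finset.mem_filter.1 h).2
    have hsub : (inc E p ∪ inc E q) ∪ F ⊆ E := by
      intro e he
      rcases Finset.mem_union.1 he with h | h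
      · rcases Finset.mem_union.1 h with h | h
        · exact (Finset.mem_filter.1 h).1
        · exact (Finset.mem_filter.1 h).1
      · exact hFE h
    have hc := Finset.card_le_card hsub
    rw [Finset.card_union_of_disjoint hd2, Finset.card_union_of_disjoint hd1] at hc
    omega

end Pool.Agent.helper41.CL

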