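import Pool.Agent.helper41.CL.SpecC

/-!
# Row cl:NB
-/

set_option autoImplicit false

namespace Pool.Agent.helper41.CL

open Finset

theorem NB_aux {α : Type} [DecidableEq α] (e : Finset α) (p : α) (he : e.card = 2) (hp : p ∈ e) :
    ∃ a, p ≠ a ∧ e = {p, a} := by
  obtain ⟨x, y, hxy, rfl⟩ := Finset.card_eq_two.1 he
  rw [Finset.mem_insert, Finset.mem_singleton] at hp
  rcases hp with rfl | rfl
  · exact ⟨y, hxy, rfl⟩
  · exact ⟨x, hxy.symm, Finset.pair_comm _ _⟩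

theorem NB : NB_stmt := by
  intro α _ V E p hG hp
  obtain ⟨e, f, hef, hI⟩ := Finset.card_eq_two.1 hp
  have he : e ∈ inc E p := by rw [hI]; simp
  have hf : f ∈ inc E p := by rw [hI]; simp
  obtain ⟨he1, he2⟩ := Finset.mem_filter.1 he
  obtain ⟨hf1, hf2⟩ := Finset.mem_filter.1 hf
  obtain ⟨a, hpa, hea⟩ := NB_aux e p (hG e he1).2 he2
  obtain ⟨b, hpb, hfb⟩ := NB_aux f p (hG f hf1).2 hf2
  have hab : a ≠ b := by
    intro h
    apply hef
    rw [hea, hfb, h]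
  refine ⟨a, b, hab, hpa, hpb, (hG e he1).1 he2, (hG e he1).1 (by rw [hea]; simp),
    (hG f hf1).1 (by rw [hfb]; simp), hea ▸ he1, hfb ▸ hf1, ?_⟩
  intro g hg hpg
  have hgI : g ∈ inc E p := Finset.mem_filter.2 ⟨hg, hpg⟩
  rw [hI, Finset.mem_insert, Finset.mem_singleton] at hgI
  rcases hgI with h | h
  · left; rw [h, hea]
  · right; rw [h, hfb]

end Pool.Agent.helper41.CL
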