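import Pool.Agent.helper47.CL.SpecD

/-!
# Row cl:NM2 (second prover), MP_d9d598_co: the claim SM for all N
-/

set_option autoImplicit false

namespace Pool.Agent.helper41.CL

open Finset

private theorem NM2_one {α : Type} [DecidableEq α] {E : Finset (Finset α)} {a p : α} (h1 : #(inc E a) = 1)
    (h2 : {p, a} ∈ E) : ∀ e ∈ E, a ∈ e → e = {p, a} := by
  intro e he hae
  obtain ⟨f, hf⟩ := Finset.card_eq_one.1 h1
  have h3 : e ∈ inc E a := by
    unfold inc
    exact Finset.mem_filter.2 ⟨he, hae⟩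
  have h4 : ({p, a} : Finset α) ∈ inc E a := by
    unfold inc
    exact Finset.mem_filter.2 ⟨h2, by simp⟩
  rw [hf, Finset.mem_singleton] at h3 h4
  rw [h3, h4]

private theorem NM2_mem {α : Type} [DecidableEq α] {V : Finset α} {E : Finset (Finset α)} (hG : Gr V E) {x : α}
    {e : Finset α} (he : e ∈ E) (hx : x ∈ e) : x ∈ V := (hG e he).1 hx

private theorem NM2_n0 (A B C n : ℕ) (h : 2 * A * B ≤ 3 * C * n) : 4 * A * B ≤ 9 * C * n := by
  nlinarith [Nat.zero_le (C * n)]

private theorem NM2_n1 (A B C n n' : ℕ) (h : 2 * A * (2 * B) ≤ 3 * C * n') (hn : n' ≤ n) :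
    4 * (3 * A) * (2 * B) ≤ 9 * (2 * C) * n := by
  have h1 : C * n' ≤ C * n := Nat.mul_le_mul_left _ hn
  nlinarith

private theorem NM2_n2 (A B C n n1 n2 : ℕ) (h1 : 2 * A * B ≤ 3 * C * n1) (h2 : A * (2 * B) ≤ 3 * C * n2)
    (hn : n1 + n2 ≤ n) : 4 * (3 * A) * (2 * B) ≤ 9 * (2 * C) * n := by
  have h3 : C * (n1 + n2) ≤ C * n := Nat.mul_le_mul_left _ hn
  nlinarith

private theorem NM2_n3 (A B C n n' : ℕ) (h : 4 * A * B ≤ 9 * C * n') (hn : 3 * n' ≤ n) :
    4 * (3 * A) * (2 * B) ≤ 9 * (2 * C) * n := by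
  have h1 : C * (3 * n') ≤ C * n := Nat.mul_le_mul_left _ hn
  nlinarith

private theorem NM2_n4 (A B C n n1 n2 : ℕ) (h1 : 4 * A * B ≤ 9 * C * n1) (h2 : 4 * A * (2 * B) ≤ 9 * C * n2)
    (hn : n1 + n2 ≤ n) : 4 * (3 * A) * (2 * B) ≤ 9 * (2 * C) * n := by
  have h3 : C * (n1 + n2) ≤ C * n := Nat.mul_le_mul_left _ hn
  nlinarith

theorem NM2 (h1 : RD_stmt) (h2 : NA_stmt) (h3 : NQ_stmt) (h4 : NS_stmt) (h5 : NT_stmt) (h6 : ZW_stmt)
    (h7 : ZP_stmt) : NM2_stmt := by
  intro N
  induction N with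
  | zero =>
    intro α _ V E q r hG hV hN hr hrq
    omega
  | succ N ih =>
    intro α _ V E q r hG hV hN hr hrq hE hH
    by_cases hE2 : #E + 2 ≤ q + 2 * r
    · exact NM2_n0 _ _ _ _ ((h1 (#V)).2.1 α V E q r hG hV le_rfl (by omega) hE2)
    have hE1 : #E + 1 = q + 2 * r := by omega
    by_cases hr1 : r = 1
    · subst hr1
      have h8 := h2 α V E q hG hrq hV (by omega) hH
      rw [pow_one, pow_one]
      omega
    obtain ⟨s, rfl⟩ : ∃ s, r = s + 1 := ⟨r - 1, by omega⟩
    obtain ⟨t, rfl⟩ : ∃ t, q = t + 1 := ⟨q - 1, by omega⟩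
    have hs : 1 ≤ s := by omega
    rcases h4 α V E hG with ⟨p, hp⟩ | ⟨p, a, b, hT, ha, hb, hab⟩ | ⟨hd, p, a, b, hT, hab⟩ |
      ⟨p, a, b, y, hT, hT2, ha, hy⟩ | ⟨hd, hT⟩
    · have hpV : p ∈ V := by
        have h9 : 0 < #(inc E p) := by omega
        obtain ⟨e, he⟩ := Finset.card_pos.1 h9
        unfold inc at he
        obtain ⟨he1, he2⟩ := Finset.mem_filter.1 he
        exact NM2_mem hG he1 he2
      obtain ⟨g1, g2, g3, g4⟩ := h7 α V E p hG hpV
      have h8 := (h1 (#(V.erase p))).2.1 α (V.erase p) (av E {p}) (t + 1) s g1 (by omega) le_rfl (by omega)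
        (by omega)
      rw [pow_succ' 3 s, pow_succ' 2 s, pow_succ' 2 t]
      rw [pow_succ' 2 t] at h8
      exact NM2_n1 _ _ _ _ _ h8 (g4 _)
    · obtain ⟨g1, g2, g3, g4, g5, -, g7, g8⟩ := h6 α V E p a b hG hT
      have g9 := g7 ha hb hab
      have h8 := (h1 (#(V \ {p, a, b}))).2.1 α (V \ {p, a, b}) (av E {p, a, b}) t s g1 (by omega) le_rfl (by omega)
        (by omega)
      have h9 := (h1 (#(V.erase p))).1 α (V.erase p) (av E {p}) (t + 1) s g2 (by omega) le_rfl (by omega)
        (by omega)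
      rw [pow_succ' 3 s, pow_succ' 2 s, pow_succ' 2 t]
      rw [pow_succ' 2 t] at h9
      exact NM2_n2 _ _ _ _ _ _ h8 h9 (g8 (t + 1))
    · obtain ⟨g1, g2, g3, g4, g5⟩ := h5 α V E p a b hG hd hT hab
      have h8 := ih α (V \ {p, a, b}) (av E {p, a, b}) t s g1 (by omega) (by omega) hs (by omega) (by omega)
        (g5 (t + 1) hH)
      rw [pow_succ' 3 s, pow_succ' 2 s, pow_succ' 2 t]
      exact NM2_n3 _ _ _ _ _ h8 (g4 (t + 1))
    · obtain ⟨g1, g2, g3, g4, g5, g6, -, g8⟩ := h6 α V E p a b hG hT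
      obtain ⟨t1, t2, t3, t4, t5, t6⟩ := hT
      obtain ⟨u1, u2, u3, u4, u5, u6⟩ := hT2
      have hb2 : 2 ≤ #(inc E b) := by
        have hsub : ({{b, p}, {b, y}} : Finset (Finset α)) ⊆ inc E b := by
          intro e he
          unfold inc
          rw [Finset.mem_insert, Finset.mem_singleton] at he
          rcases he with rfl | rfl
          · exact Finset.mem_filter.2 ⟨u4, by simp⟩
          · exact Finset.mem_filter.2 ⟨u5, by simp⟩
        have hne : ({b, p} : Finset α) ≠ {b, y} := by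
          intro h
          have h9 : p ∈ ({b, y} : Finset α) := by
            rw [← h]
            simp
          rw [Finset.mem_insert, Finset.mem_singleton] at h9
          rcases h9 with h9 | h9
          · exact u2 h9.symm
          · exact u1 h9
        have h9 := Finset.card_le_card hsub
        rw [Finset.card_pair hne] at h9
        exact h9
      have g9 := g6 (Or.inr hb2)
      have hya : y ≠ a := by
        intro h
        subst h
        have h9 := NM2_one ha t4 {b, y} u5 (by simp)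
        have h10 : b ∈ ({p, y} : Finset α) := by
          rw [← h9]
          simp
        rw [Finset.mem_insert, Finset.mem_singleton] at h10
        rcases h10 with h10 | h10
        · exact u2 h10
        · exact u3 h10
      have haV : a ∈ V := NM2_mem hG t4 (by simp)
      have hyV : y ∈ V := NM2_mem hG u5 (by simp)
      have hH1 : HH (V.erase p) (av E {p}) (t + 1 + 1) := by
        refine Or.inl ⟨a, Finset.mem_erase.2 ⟨fun h => t2 h.symm, haV⟩, ?_⟩
        intro e he hae
        unfold av at he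
        obtain ⟨he1, he2⟩ := Finset.mem_filter.1 he
        have h9 := NM2_one ha t4 e he1 hae
        rw [h9] at he2
        exact (Finset.disjoint_left.1 he2 (show p ∈ ({p, a} : Finset α) by simp)) (by simp)
      have hH2 : HH (V \ {p, a, b}) (av E {p, a, b}) (t + 1) := by
        refine Or.inl ⟨y, Finset.mem_sdiff.2 ⟨hyV, ?_⟩, ?_⟩
        · intro h
          rw [Finset.mem_insert, Finset.mem_insert, Finset.mem_singleton] at h
          rcases h with h | h | h
          · exact u1 h.symm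
          · exact hya h
          · exact u3 h.symm
        · intro e he hye
          unfold av at he
          obtain ⟨he1, he2⟩ := Finset.mem_filter.1 he
          have h9 := NM2_one hy u5 e he1 hye
          rw [h9] at he2
          exact (Finset.disjoint_left.1 he2 (show b ∈ ({b, y} : Finset α) by simp)) (by simp)
      have h8 := ih α (V \ {p, a, b}) (av E {p, a, b}) t s g1 (by omega) (by omega) hs (by omega) (by omega) hH2
      have h9 := ih α (V.erase p) (av E {p}) (t + 1) s g2 (by omega) (by omega) hs (by omega) (by omega) hH1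
      rw [pow_succ' 3 s, pow_succ' 2 s, pow_succ' 2 t]
      rw [pow_succ' 2 t] at h9
      exact NM2_n4 _ _ _ _ _ _ h8 h9 (g8 (t + 1))
    · exact h3 α V E (t + 1) (s + 1) hG hV hE1 (by omega) hd hT

end Pool.Agent.helper41.CL
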